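import Pool.Agent.L0h8.ND.Classes

/-!
MP_75608d_al.  The random walk on `A_n` with a fixed number of random generators, started at one
more random element, is equidistributed on the conjugacy classes after logarithmic time.
-/

namespace Pool.Agent.Results.MP_75608d_al.ConjugacyClassMixing
open Finset Filter Topology

noncomputable section

/-- the probability that the lazy random walk on `A_n` with generators `x_i`, `x_i⁻¹`, started at
`g`, is in the set `C` after `t` steps: a step stays put with probability `1/2` and multiplies on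
the right by each of the `2k` elements `x_i`, `x_i⁻¹` with probability `1/(4k)` -/
def inProb {n k : ℕ} (x : Fin k → alternatingGroup (Fin n)) (C : Set (alternatingGroup (Fin n))) :
    ℕ → alternatingGroup (Fin n) → ℝ
  | 0, g => Set.indicator C 1 g
  | t + 1, g => inProb x C t g / 2 +
      ∑ i, (inProb x C t (g * x i) + inProb x C t (g * (x i)⁻¹)) / (4 * k)

/-- the proportion of the elements of `A_n` which are in the conjugacy class `C` -/
def density {n : ℕ} (C : ConjClasses (alternatingGroup (Fin n))) : ℝ :=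
  (Nat.card C.carrier : ℝ) / Nat.card (alternatingGroup (Fin n))

/-- the lazy walk with the generators `x_1, ..., x_k`, started at `x_0`: for every conjugacy class
`C` of `A_n` of density at least `exp (-n^(1-δ))`, and for all times `t` from
`K (log (1 / density C) + log n)` to `exp (n^(1-δ))`, the walk is in `C` at time `t` with
probability `density C`, up to the factor `1 ± (exp (-t/K) + exp (-n^(1-δ)))` -/
def ClassesMixed (n : ℕ) (δ K : ℝ) {k : ℕ} (x : Fin (k + 1) → alternatingGroup (Fin n)) : Prop :=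
  ∀ C : ConjClasses (alternatingGroup (Fin n)), Real.exp (-(n : ℝ) ^ (1 - δ)) ≤ density C →
    ∀ t : ℕ, K * (Real.log (1 / density C) + Real.log n) ≤ t →
      (t : ℝ) ≤ Real.exp ((n : ℝ) ^ (1 - δ)) →
        |inProb (fun i : Fin k => x i.succ) C.carrier t (x 0) - density C| ≤
          (Real.exp (-(t / K)) + Real.exp (-(n : ℝ) ^ (1 - δ))) * density C

lemma inProb_eq {n k : ℕ} (y : Fin k → alternatingGroup (Fin n))
    (C : Set (alternatingGroup (Fin n))) (t : ℕ) :
    inProb y C t = (Pool.Agent.L0h8.ND.lz (Pool.Agent.L0h8.ND.rmul y))^[t] (C.indicator 1) := by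
  induction t with
  | zero => rfl
  | succ t ih =>
    funext g
    rw [Function.iterate_succ_apply', ← ih]
    simp only [inProb, Pool.Agent.L0h8.ND.lz, Pool.Agent.L0h8.ND.wk]
    have e : ∀ i, ((Equiv.mulRight (y i))⁻¹ : Equiv.Perm (alternatingGroup (Fin n))) g =
        g * (y i)⁻¹ := fun i => rfl
    simp only [Pool.Agent.L0h8.ND.rmul, e, Equiv.coe_mulRight]
    rw [← Finset.sum_div]
    ring

lemma card_cl {n : ℕ} (C : ConjClasses (alternatingGroup (Fin n))) :
    Nat.card C.carrier = (Pool.Agent.L0h8.ND.cl C).card := by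
  classical
  rw [Nat.card_coe_set_eq, Set.ncard_eq_toFinset_card']
  congr 1
  ext g
  simp [Pool.Agent.L0h8.ND.cl]

theorem result (δ : ℝ) (hδ : 0 < δ) : ∃ k₀ : ℕ, ∀ k ≥ k₀, ∃ K : ℝ, 0 < K ∧
    Tendsto (fun n : ℕ =>
      (Nat.card {x : Fin (k + 1) → alternatingGroup (Fin n) // ClassesMixed n δ K x} : ℝ) /
        (Nat.card (Fin (k + 1) → alternatingGroup (Fin n)) : ℝ)) atTop (𝓝 1) := by
  obtain ⟨k₀, hk₀⟩ := Pool.Agent.L0h8.ND.classes (min δ 1) (lt_min hδ one_pos) (min_le_right _ _)
  refine ⟨k₀, fun k hk => ?_⟩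
  obtain ⟨K, hK, hlim⟩ := hk₀ k hk
  refine ⟨K, hK, ?_⟩
  have himp : ∀ n : ℕ, 1 ≤ n → ∀ x : Fin (k + 1) → alternatingGroup (Fin n),
      Pool.Agent.L0h8.ND.Equid n ((n : ℝ) ^ (1 - min δ 1)) K (Fin.tail x) (x 0) →
        ClassesMixed n δ K x := by
    intro n hn x hx C hC t ht ht2
    have hn1 : (1 : ℝ) ≤ n := by exact_mod_cast hn
    have hX : (n : ℝ) ^ (1 - δ) ≤ (n : ℝ) ^ (1 - min δ 1) :=
      Real.rpow_le_rpow_of_exponent_le hn1 (by linarith [min_le_left δ 1])
    have hd : density C = ((Pool.Agent.L0h8.ND.cl C).card : ℝ) /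
        Fintype.card (alternatingGroup (Fin n)) := by
      rw [density, card_cl, Nat.card_eq_fintype_card]
    have hN : (0 : ℝ) < Fintype.card (alternatingGroup (Fin n)) := by
      exact_mod_cast Fintype.card_pos
    have hcs : ((Pool.Agent.L0h8.ND.cl C : Finset _) : Set (alternatingGroup (Fin n))) =
        C.carrier := by
      ext g; simp [Pool.Agent.L0h8.ND.cl]
    have h1 := hx C (by
        rw [hd, le_div_iff₀ hN] at hC
        refine le_trans ?_ hC
        gcongr) t (by
        rw [hd, one_div_div] at ht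
        exact ht) (ht2.trans (Real.exp_le_exp.2 hX))
    rw [hcs] at h1
    rw [inProb_eq, hd]
    refine h1.trans ?_
    gcongr
  have key : ∀ ε0 : ℝ, 0 < ε0 → ∀ᶠ n : ℕ in atTop,
      (Nat.card {x : Fin (k + 1) → alternatingGroup (Fin n) // ¬ ClassesMixed n δ K x} : ℝ) ≤
        ε0 * (Fintype.card (alternatingGroup (Fin n)) : ℝ) ^ (k + 1) := by
    intro ε0 hε0
    filter_upwards [hlim ε0 hε0, eventually_ge_atTop 1] with n hn hn1
    refine le_trans ?_ hn
    have h5 := RC14.card_mono (fun x : Fin (k + 1) → alternatingGroup (Fin n) =>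
      ¬ ClassesMixed n δ K x)
      (fun x => ¬ Pool.Agent.L0h8.ND.Equid n ((n : ℝ) ^ (1 - min δ 1)) K (Fin.tail x) (x 0))
      (fun x hx h => hx (himp n hn1 x h))
    exact_mod_cast h5
  have hpos : ∀ n : ℕ, (0 : ℝ) < (Fintype.card (alternatingGroup (Fin n)) : ℝ) := fun n => by
    exact_mod_cast Fintype.card_pos
  have hcard : ∀ n : ℕ, (Nat.card (Fin (k + 1) → alternatingGroup (Fin n)) : ℝ) =
      (Fintype.card (alternatingGroup (Fin n)) : ℝ) ^ (k + 1) := fun n => by
    rw [Nat.card_eq_fintype_card, Fintype.card_fun, Fintype.card_fin]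
    push_cast
    rfl
  refine tendsto_order.mpr ⟨fun b hb => ?_, fun b hb => ?_⟩
  · filter_upwards [key ((1 - b) / 2) (by linarith)] with n hn
    have hA := hpos n
    rw [hcard, lt_div_iff₀ (by positivity), RC14.card_compl, Fintype.card_fun, Fintype.card_fin]
    push_cast
    have hp : (0 : ℝ) < (Fintype.card (alternatingGroup (Fin n)) : ℝ) ^ (k + 1) := by positivity
    nlinarith
  · refine Eventually.of_forall fun n => lt_of_le_of_lt ?_ hb
    have hA := hpos n
    rw [hcard, div_le_one (by positivity), RC14.card_compl, Fintype.card_fun, Fintype.card_fin]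
    push_cast
    linarith [Nat.cast_nonneg (α := ℝ) (Nat.card {x : Fin (k + 1) → alternatingGroup (Fin n) //
      ¬ ClassesMixed n δ K x})]

end

end Pool.Agent.Results.MP_75608d_al.ConjugacyClassMixing
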