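import Pool.Agent.L0h8.ND.Main

/-!
MP_75608d_al.  The diameter of `A_n` with respect to a fixed number of random even permutations:
for every `δ > 0` and every `k ≥ k₀(δ)`, with probability tending to one, every element of `A_n`
is a product of at most `n ^ (1 + δ)` factors from `x_1, x_1⁻¹, ..., x_k, x_k⁻¹`.
-/

namespace Pool.Agent.Results.MP_75608d_al.NearLinearDiameter
open Finset Filter Topology

noncomputable section

/-- `x_1, ..., x_k` generate `A_n` with diameter at most `D`: every even permutation of `n` points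
is the product of a list of at most `D` permutations, each of which is some `x i` or some
`(x i)⁻¹` -/
def DiameterAtMost (n : ℕ) (D : ℝ) {k : ℕ} (x : Fin k → alternatingGroup (Fin n)) : Prop :=
  ∀ g : alternatingGroup (Fin n), ∃ w : List (alternatingGroup (Fin n)),
    (w.length : ℝ) ≤ D ∧ (∀ y ∈ w, ∃ i, y = x i ∨ y = (x i)⁻¹) ∧ w.prod = g

/-- the probability that `k` independent uniformly random elements of `A_n` generate `A_n` with
diameter at most `D` -/
def probDiameterAtMost (n k : ℕ) (D : ℝ) : ℝ :=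
  (Nat.card {x : Fin k → alternatingGroup (Fin n) // DiameterAtMost n D x} : ℝ) /
    (Nat.card (Fin k → alternatingGroup (Fin n)) : ℝ)

theorem result (δ : ℝ) (hδ : 0 < δ) : ∃ k₀ : ℕ, ∀ k ≥ k₀,
    Tendsto (fun n : ℕ => probDiameterAtMost n k ((n : ℝ) ^ (1 + δ))) atTop (𝓝 1) := by
  obtain ⟨k₀, hk₀⟩ := Pool.Agent.L0h8.ND.main δ hδ
  refine ⟨k₀, fun k hk => ?_⟩
  have key : ∀ ε0 : ℝ, 0 < ε0 → ∀ᶠ n : ℕ in atTop,
      (Nat.card {x : Fin k → alternatingGroup (Fin n) //
        ¬ DiameterAtMost n ((n : ℝ) ^ (1 + δ)) x} : ℝ) ≤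
        ε0 * (Fintype.card (alternatingGroup (Fin n)) : ℝ) ^ k := by
    intro ε0 hε0
    filter_upwards [hk₀ k hk ε0 hε0] with n hn
    refine le_trans ?_ hn
    have h5 := RC14.card_mono (fun x : Fin k → alternatingGroup (Fin n) =>
      ¬ DiameterAtMost n ((n : ℝ) ^ (1 + δ)) x)
      (fun x => ¬ ∃ T : ℕ, (T : ℝ) ≤ (n : ℝ) ^ (1 + δ) ∧
        ∀ w : alternatingGroup (Fin n), w ∈ Pool.Agent.L0h8.ND.ball x T)
      (fun x hx h => hx (by
        obtain ⟨T, hT, hw⟩ := h
        intro g
        obtain ⟨w, h1, h2, h3⟩ := hw g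
        exact ⟨w, le_trans (by exact_mod_cast h1) hT, h2, h3⟩))
    exact_mod_cast h5
  have hpos : ∀ n : ℕ, (0 : ℝ) < (Fintype.card (alternatingGroup (Fin n)) : ℝ) := fun n => by
    exact_mod_cast Fintype.card_pos
  have hcard : ∀ n : ℕ, (Nat.card (Fin k → alternatingGroup (Fin n)) : ℝ) =
      (Fintype.card (alternatingGroup (Fin n)) : ℝ) ^ k := fun n => by
    rw [Nat.card_eq_fintype_card, Fintype.card_fun, Fintype.card_fin]
    push_cast
    rfl
  unfold probDiameterAtMost
  refine tendsto_order.mpr ⟨fun b hb => ?_, fun b hb => ?_⟩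
  · filter_upwards [key ((1 - b) / 2) (by linarith)] with n hn
    have hA := hpos n
    rw [hcard, lt_div_iff₀ (by positivity), RC14.card_compl, Fintype.card_fun, Fintype.card_fin]
    push_cast
    have hp : (0 : ℝ) < (Fintype.card (alternatingGroup (Fin n)) : ℝ) ^ k := by positivity
    nlinarith
  · refine Eventually.of_forall fun n => lt_of_le_of_lt ?_ hb
    have hA := hpos n
    rw [hcard, div_le_one (by positivity), RC14.card_compl, Fintype.card_fun, Fintype.card_fin]
    push_cast
    linarith [Nat.cast_nonneg (α := ℝ) (Nat.card {x : Fin k → alternatingGroup (Fin n) //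
      ¬ DiameterAtMost n ((n : ℝ) ^ (1 + δ)) x})]

end

end Pool.Agent.Results.MP_75608d_al.NearLinearDiameter
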