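import Pool.Agent.L0h8.ND.GapD

/-!
MP_75608d_al.  For every `δ > 0` and every `k ≥ k₀(δ)`: with probability tending to one, `k` random
elements of `A_n` form an `n ^ (-2 - δ)`-expanding generating set.
-/

namespace Pool.Agent.Results.MP_75608d_al.PolynomialGap
open Finset Filter Topology

noncomputable section

/-- the transition operator of the random walk on `A_n` with the generators `x_i`, `x_i⁻¹`:
`(P f)(g) = (1/2k) ∑_i (f(g x_i) + f(g x_i⁻¹))` -/
def walkOp {n k : ℕ} (x : Fin k → alternatingGroup (Fin n)) (f : alternatingGroup (Fin n) → ℝ)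
    (g : alternatingGroup (Fin n)) : ℝ :=
  (∑ i, (f (g * x i) + f (g * (x i)⁻¹))) / (2 * k)

/-- `x_1, ..., x_k` is an `ε`-expanding generating set of `A_n`: it generates `A_n`, and
`1 - λ₂ ≥ ε`, that is, `⟨f, P f⟩ ≤ (1 - ε) ⟨f, f⟩` for all real functions `f` on `A_n` of mean
zero -/
def IsExpanding {n k : ℕ} (ε : ℝ) (x : Fin k → alternatingGroup (Fin n)) : Prop :=
  Subgroup.closure (Set.range x) = ⊤ ∧
    ∀ f : alternatingGroup (Fin n) → ℝ, ∑ g, f g = 0 →
      ∑ g, f g * walkOp x f g ≤ (1 - ε) * ∑ g, f g ^ 2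

theorem result (δ : ℝ) (hδ : 0 < δ) : ∃ k₀ : ℕ, ∀ k ≥ k₀,
    Tendsto (fun n : ℕ =>
      (Nat.card {x : Fin k → alternatingGroup (Fin n) // IsExpanding ((n : ℝ) ^ (-2 - δ)) x} : ℝ) /
        (Nat.card (Fin k → alternatingGroup (Fin n)) : ℝ)) atTop (𝓝 1) := by
  obtain ⟨k₀, hk₀⟩ := Pool.Agent.L0h8.ND.main (δ / 4) (by positivity)
  refine ⟨k₀ + 1, fun k hk => ?_⟩
  have key : ∀ ε0 : ℝ, 0 < ε0 → ∀ᶠ n : ℕ in atTop,
      (Nat.card {x : Fin k → alternatingGroup (Fin n) //
        ¬ IsExpanding ((n : ℝ) ^ (-2 - δ)) x} : ℝ) ≤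
        ε0 * (Fintype.card (alternatingGroup (Fin n)) : ℝ) ^ k := by
    intro ε0 hε0
    filter_upwards [hk₀ k (by omega) ε0 hε0, RC14.ev_const (δ / 2) k (by positivity),
      eventually_ge_atTop 1] with n hn hkn hn1
    refine le_trans ?_ hn
    have hn1' : (1 : ℝ) ≤ n := by exact_mod_cast hn1
    have hn0 : (0 : ℝ) < n := by linarith
    have h5 := RC14.card_mono (fun x : Fin k → alternatingGroup (Fin n) =>
      ¬ IsExpanding ((n : ℝ) ^ (-2 - δ)) x)
      (fun x => ¬ ∃ T : ℕ, (T : ℝ) ≤ (n : ℝ) ^ (1 + δ / 4) ∧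
        ∀ w : alternatingGroup (Fin n), w ∈ Pool.Agent.L0h8.ND.ball x T)
      (fun x hx h => hx (Pool.Agent.L0h8.ND.expanding_of_diam (by omega) (by
          calc (n : ℝ) ^ (-2 - δ) * (k * ((n : ℝ) ^ (1 + δ / 4)) ^ 2)
              ≤ (n : ℝ) ^ (-2 - δ) * ((n : ℝ) ^ (δ / 2) * ((n : ℝ) ^ (1 + δ / 4)) ^ 2) := by
                gcongr
            _ = (n : ℝ) ^ (0 : ℝ) := by
                rw [← Real.rpow_natCast ((n : ℝ) ^ (1 + δ / 4)), ← Real.rpow_mul hn0.le,
                  ← Real.rpow_add hn0, ← Real.rpow_add hn0]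
                congr 1
                push_cast
                ring
            _ = 1 := Real.rpow_zero _) x h))
    exact_mod_cast h5
  have hpos : ∀ n : ℕ, (0 : ℝ) < (Fintype.card (alternatingGroup (Fin n)) : ℝ) := fun n => by
    exact_mod_cast Fintype.card_pos
  have hcard : ∀ n : ℕ, (Nat.card (Fin k → alternatingGroup (Fin n)) : ℝ) =
      (Fintype.card (alternatingGroup (Fin n)) : ℝ) ^ k := fun n => by
    rw [Nat.card_eq_fintype_card, Fintype.card_fun, Fintype.card_fin]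
    push_cast
    rfl
  refine tendsto_order.mpr ⟨fun b hb => ?_, fun b hb => ?_⟩
  · filter_upwards [key ((1 - b) / 2) (by linarith)] with n hn
    have hA := hpos n
    rw [hcard, lt_div_iff₀ (by positivity), RC14.card_compl, Fintype.card_fun, Fintype.card_fin]
    push_cast
    have hp : (0 : ℝ) < (Fintype.card (alternatingGroup (Fin n)) : ℝ) ^ k := by positivity
    nlinarith
  · refine Eventually.of_forall fun n => lt_of_le_of_lt ?_ hb
    have hA := hpos n
    rw [hcard, div_le_one (by positivity), RC14.card_compl, Fintype.card_fun, Fintype.card_fin]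
    push_cast
    linarith [Nat.cast_nonneg (α := ℝ) (Nat.card {x : Fin k → alternatingGroup (Fin n) //
      ¬ IsExpanding ((n : ℝ) ^ (-2 - δ)) x})]

end

end Pool.Agent.Results.MP_75608d_al.PolynomialGap
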